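import Pool.Agent.TH907.Sar.Ran

/-!
# Sarnak's conjecture for almost all re-signings of the Möbius function

Let `Q` be a set of primes with `∑ 1 / q → ∞` over `q ∈ Q`, `(log₂ y) ^ 2 < q ≤ y`, as `y → ∞`, and
let `g` be completely multiplicative with values `±1` at the primes, for example the Liouville
function.  For almost every choice of signs at the primes of `Q` the modified function `f` and
`n ↦ μ(n) ^ 2 f(n)` (for `g = λ`: the Möbius function, re-signed at the primes of `Q`) are orthogonal
to every topological dynamical system of zero topological entropy, in the Cesàro sense uniformly in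
the point, in the logarithmic sense, and in almost all short intervals.
-/

set_option autoImplicit false

namespace Pool.Agent.Results.MP_3e612f_nt.AlmostAllResignings

open Filter Topology MeasureTheory Finset Pool.Agent.H220M Pool.Agent.TH907.Sar

theorem result (g : ℕ →*₀ ℤ) (hg : ∀ p : ℕ, p.Prime → g p = 1 ∨ g p = -1)
    (Q : Set ℕ) (hQp : ∀ q ∈ Q, q.Prime) (hQ : Thick Q) :
    ∀ᵐ ω ∂coins, ∃! f : ℕ →*₀ ℤ, IsModif g Q ω f ∧
      ∀ (X : Type) [MetricSpace X] [CompactSpace X] (T : X → X),
        Dynamics.coverEntropy T Set.univ ≤ 0 →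
          Orth (fun n => ((f n : ℤ) : ℂ)) T ∧
          Orth (fun n => (((ArithmeticFunction.moebius n) ^ 2 * f n : ℤ) : ℂ)) T := by
  filter_upwards [ae_chow g hg Q hQp hQ] with ω hω
  obtain ⟨f, hf, u, hu, hfu⟩ := hω
  refine ⟨f, ⟨hf, ?_⟩, fun f' hf' => isModif_unique g Q ω f' f hf'.1 hf⟩
  intro X _ _ T hE
  constructor
  · refine (orth_of_chow u hu T hE _ rap_one).congr fun n hn => ?_
    rw [hfu n (by omega), one_mul]
  · refine (orth_of_chow u hu T hE _ rap_sq).congr fun n hn => ?_
    rw [hfu n (by omega)]
    push_cast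
    rfl

end Pool.Agent.Results.MP_3e612f_nt.AlmostAllResignings
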